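import Mathlib
import Pool.Agent.H248ME.E

/-!
# Large sets of integers with small mixed multiplicative energy (MP_2883d2)

We answer Q1 affirmatively, in the stronger form that `α + β` can be made smaller than `1/4 + δ`
for every `δ > 0`.

The sets are (subsets of) `{n ≤ N : Ω(n) ≤ ½ log log N}`.  Writing `a = gx`, `c = gy` with
`gcd(x, y) = 1`, the energy is `∑ #{g ≤ N / max(x,y)} #{h ≤ N / max(x,y)}`, and Rankin's trick with
the completely multiplicative weight `2 ^ (-Ω(n))` reduces the upper bound to the standard estimates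
`∑_{n ≤ x} z ^ Ω(n) ≪ x (log x) ^ (z - 1)` with `z = 1/2, 1/4`.  The cardinality is bounded from
below with products of `j` small primes and one large prime.
-/

set_option autoImplicit false

namespace Pool.Agent.Results.MP_2883d2_nt.QuarterPlusDelta

open Filter

/-- The mixed multiplicative energy: the number of quadruples `((a, b), (c, d))` with `a, c ∈ B`,
`1 ≤ b, d ≤ N` and `ab = cd`. -/
def mulEnergy (B : Finset ℕ) (N : ℕ) : ℕ :=
  (((B ×ˢ Finset.Icc 1 N) ×ˢ (B ×ˢ Finset.Icc 1 N)).filter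
    (fun q => q.1.1 * q.1.2 = q.2.1 * q.2.2)).card

/-- For every `δ > 0` there are `α, β ≥ 0` with `α + β < 1/4 + δ` and a family
`B_N ⊆ {1, …, N}` of density `(log N) ^ (-α)` with
`E(B_N, N) ≪ N |B_N| (log N) ^ β` for all large `N`. -/
theorem result (δ : ℝ) (hδ : 0 < δ) :
    ∃ α β : ℝ, 0 ≤ α ∧ 0 ≤ β ∧ α + β < 1 / 4 + δ ∧
      ∃ B : ℕ → Finset ℕ, (∀ N, B N ⊆ Finset.Icc 1 N) ∧
        (∃ c C : ℝ, 0 < c ∧ c ≤ C ∧ ∃ N₀ : ℕ, ∀ N ≥ N₀,
          c * (N * (Real.log N) ^ (-α)) ≤ (B N).card ∧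
          (B N).card ≤ C * (N * (Real.log N) ^ (-α))) ∧
        ∃ K : ℝ, ∃ N₀ : ℕ, ∀ N ≥ N₀,
          (mulEnergy (B N) N : ℝ) ≤ K * (N * (B N).card * (Real.log N) ^ β) := by
  set ε : ℝ := δ / 4 with hεdef
  have hε : 0 < ε := by positivity
  have hl1 := Real.log_two_gt_d9
  have hl2 := Real.log_two_lt_d9
  set α : ℝ := (1 - Real.log 2) / 2 + ε with hα
  set β : ℝ := α - (3 / 4 - Real.log 2 - ε) with hβ
  have hα0 : 0 < α := by rw [hα]; linarith
  refine ⟨α, β, hα0.le, by rw [hβ, hα]; linarith, by rw [hβ, hα, hεdef]; linarith, ?_⟩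
  -- the family
  have hex : ∀ N : ℕ, ∃ S : Finset ℕ, S ⊆ H248ME.BB N (H248ME.kk N) ∧
      (⌊(N : ℝ) * (Real.log N) ^ (-α)⌋₊ ≤ (H248ME.BB N (H248ME.kk N)).card →
        S.card = ⌊(N : ℝ) * (Real.log N) ^ (-α)⌋₊) := by
    intro N
    by_cases h : ⌊(N : ℝ) * (Real.log N) ^ (-α)⌋₊ ≤ (H248ME.BB N (H248ME.kk N)).card
    · obtain ⟨S, h1, h2⟩ := Finset.exists_subset_card_eq h
      exact ⟨S, h1, fun _ => h2⟩
    · exact ⟨∅, Finset.empty_subset _, fun h' => absurd h' h⟩
  choose B hB1 hB2 using hex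
  have hx : Tendsto (fun N : ℕ => Real.log N) atTop atTop :=
    Real.tendsto_log_atTop.comp tendsto_natCast_atTop_atTop
  have hrp : ∀ N : ℕ, 1 ≤ Real.log N → (Real.log N) ^ (-α) = Real.exp (-α * H248ME.LL N) := by
    intro N hN
    rw [Real.rpow_def_of_pos (by linarith)]
    unfold H248ME.LL
    ring_nf
  have hrpb : ∀ N : ℕ, 1 ≤ Real.log N → (Real.log N) ^ β = Real.exp (β * H248ME.LL N) := by
    intro N hN
    rw [Real.rpow_def_of_pos (by linarith)]
    unfold H248ME.LL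
    ring_nf
  -- the size of the target cardinality
  have hbig : ∀ᶠ N : ℕ in atTop, 1 ≤ (N : ℝ) * (Real.log N) ^ (-α) := by
    have h1 := (isLittleO_log_rpow_atTop (r := 1 / (α + 1)) (by positivity)).bound
      (show (0 : ℝ) < 1 by norm_num)
    have h2 := (tendsto_natCast_atTop_atTop (R := ℝ)).eventually h1
    filter_upwards [h2, hx.eventually_ge_atTop 1, eventually_ge_atTop 1] with N h2 h3 h4
    have hN0 : (1 : ℝ) ≤ N := by exact_mod_cast h4
    rw [one_mul, Real.norm_of_nonneg (by linarith), Real.norm_of_nonneg (by positivity)] at h2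
    have h5 : (Real.log N) ^ α ≤ N := by
      calc (Real.log N) ^ α ≤ ((N : ℝ) ^ (1 / (α + 1))) ^ α := by
            apply Real.rpow_le_rpow (by linarith) h2 hα0.le
        _ = (N : ℝ) ^ (1 / (α + 1) * α) := by rw [← Real.rpow_mul (by linarith)]
        _ ≤ (N : ℝ) ^ (1 : ℝ) := by
            apply Real.rpow_le_rpow_of_exponent_le hN0
            rw [one_div, inv_mul_le_iff₀ (by linarith)]
            linarith
        _ = N := Real.rpow_one _
    rw [Real.rpow_neg (by linarith), ← div_eq_mul_inv, one_le_div (by positivity)]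
    exact h5
  have hcard : ∀ᶠ N : ℕ in atTop, (1 / 2) * ((N : ℝ) * (Real.log N) ^ (-α)) ≤ (B N).card ∧
      ((B N).card : ℝ) ≤ 1 * ((N : ℝ) * (Real.log N) ^ (-α)) := by
    filter_upwards [hbig, H248ME.lower ε hε, hx.eventually_ge_atTop 1] with N h1 h2 h3
    rw [← hα, ← hrp N h3] at h2
    have h4 : ⌊(N : ℝ) * (Real.log N) ^ (-α)⌋₊ ≤ (H248ME.BB N (H248ME.kk N)).card := by
      have h5 := Nat.floor_le (show 0 ≤ (N : ℝ) * (Real.log N) ^ (-α) by linarith)
      exact_mod_cast h5.trans h2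
    rw [hB2 N h4]
    have h5 := Nat.floor_le (show 0 ≤ (N : ℝ) * (Real.log N) ^ (-α) by linarith)
    have h6 := Nat.lt_floor_add_one ((N : ℝ) * (Real.log N) ^ (-α))
    have h7 : (1 : ℝ) ≤ (⌊(N : ℝ) * (Real.log N) ^ (-α)⌋₊ : ℝ) := by
      exact_mod_cast (Nat.one_le_floor_iff _).2 h1
    constructor <;> linarith
  refine ⟨B, fun N => (hB1 N).trans (Finset.filter_subset _ _), ?_, ?_⟩
  · obtain ⟨N₀, hN₀⟩ := eventually_atTop.1 hcard
    exact ⟨1 / 2, 1, by norm_num, by norm_num, N₀, hN₀⟩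
  · have hE : ∀ᶠ N : ℕ in atTop,
        (mulEnergy (B N) N : ℝ) ≤ 2 * (N * (B N).card * (Real.log N) ^ β) := by
      filter_upwards [hcard, H248ME.upper ε hε, hx.eventually_ge_atTop 1] with N h1 h2 h3
      have h4 : (mulEnergy (B N) N : ℝ) ≤ (H248ME.energy (H248ME.BB N (H248ME.kk N)) N : ℝ) := by
        exact_mod_cast H248ME.energy_mono (hB1 N) N
      refine h4.trans (h2.trans ?_)
      rw [hrpb N h3]
      have h5 := h1.1
      rw [hrp N h3] at h5
      have h6 : Real.exp (-(3 / 4 - Real.log 2 - ε) * H248ME.LL N) =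
          Real.exp (-α * H248ME.LL N) * Real.exp (β * H248ME.LL N) := by
        rw [← Real.exp_add]; congr 1; rw [hβ]; ring
      rw [h6]
      have h7 : (0 : ℝ) < Real.exp (β * H248ME.LL N) := Real.exp_pos _
      have hN0 : (0 : ℝ) ≤ N := Nat.cast_nonneg _
      calc (N : ℝ) ^ 2 * (Real.exp (-α * H248ME.LL N) * Real.exp (β * H248ME.LL N))
          = 2 * (N * (1 / 2 * (N * Real.exp (-α * H248ME.LL N))) * Real.exp (β * H248ME.LL N)) := by
            ring
        _ ≤ 2 * (N * (B N).card * Real.exp (β * H248ME.LL N)) := by gcongr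
    obtain ⟨N₀, hN₀⟩ := eventually_atTop.1 hE
    exact ⟨2, N₀, hN₀⟩

end Pool.Agent.Results.MP_2883d2_nt.QuarterPlusDelta
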